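import Pool.Agent.Helper43K9.NA.Seq

/-!
# The average `N`-adic complexity of finite sequences of length `n` is `n / 2 + O(1)`
-/

set_option autoImplicit false

namespace Pool.Agent.Results.MP_68df70_lc.HalfTheLength

/-- The element `α = ∑ b_i N ^ i` of `ℤ_N` attached to the infinite `N`-ary sequence `b` is the
rational number `f / g`, in lowest terms and with `g > 0`; here `g α = f` in `ℤ_N`, the inverse limit
of the rings `ℤ / N ^ m`, means that `g ∑_{i < m} b_i N ^ i ≡ f` modulo `N ^ m` for all `m`. -/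
def IsFraction (N : ℕ) (b : ℕ → Fin N) (f g : ℤ) : Prop :=
  0 < g ∧ Int.gcd f g = 1 ∧
    ∀ m : ℕ, (N : ℤ) ^ m ∣ g * ∑ i ∈ Finset.range m, ((b i : ℕ) : ℤ) * (N : ℤ) ^ i - f

/-- The `N`-adic complexity of an infinite `N`-ary sequence: `log_N max(|f|, |g|)` if `α = f / g` is
rational, and `⊤`, that is `∞`, if `α` is irrational. -/
noncomputable def complexity (N : ℕ) (b : ℕ → Fin N) : EReal :=
  sInf {x : EReal | ∃ f g : ℤ, IsFraction N b f g ∧
    x = ((Real.logb N ((max |f| |g| : ℤ) : ℝ) : ℝ) : EReal)}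

/-- The `N`-adic complexity of a finite `N`-ary sequence: the smallest complexity of the infinite
sequences which extend it. -/
noncomputable def finComplexity (N n : ℕ) (a : Fin n → Fin N) : EReal :=
  sInf {x : EReal | ∃ b : ℕ → Fin N, (∀ i : Fin n, b i = a i) ∧ x = complexity N b}

/-- `E_n^fin`, the average over all `N`-ary sequences of length `n`. -/
noncomputable def average (N n : ℕ) : ℝ :=
  (∑ a : Fin n → Fin N, (finComplexity N n a).toReal) / (N : ℝ) ^ n

open Pool.Agent.Helper43K9.NA in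
lemma finComplexity_eq (N n : ℕ) (hN : 2 ≤ N) (a : Fin n → Fin N) :
    finComplexity N n a = ((Real.logb N (gd N (N ^ n) (finFunctionFinEquiv a : Fin (N ^ n))) : ℝ) :
      EReal) := by
  obtain ⟨⟨b, f, g, h1, h2, h3, h4, h5⟩, hleast⟩ := isLeast_gd N n hN a
  rw [finFunctionFinEquiv_apply]
  apply le_antisymm
  · have h6 : complexity N b ≤ ((Real.logb N ((max |f| |g| : ℤ) : ℝ) : ℝ) : EReal) :=
      sInf_le ⟨f, g, ⟨h2, h3, h4⟩, rfl⟩
    rw [h5]
    refine le_trans ?_ h6
    exact sInf_le ⟨b, h1, rfl⟩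
  · apply le_sInf
    rintro x ⟨b', hb', rfl⟩
    apply le_sInf
    rintro y ⟨f', g', ⟨k1, k2, k3⟩, rfl⟩
    rw [EReal.coe_le_coe_iff]
    exact hleast ⟨b', f', g', hb', k1, k2, k3, rfl⟩

open Real Pool.Agent.Helper43K9.NA in
/-- For all `N ≥ 2` and all `n`, the average `N`-adic complexity of the `N`-ary sequences of length
`n` is `n / 2` up to a bounded error: with `ω(N)` the number of prime factors of `N`,
`n / 2 - (1 + log 3) / (2 log N) ≤ E_n^fin ≤ n / 2 + ((1 + log 3) / 2 + log (2 ^ ω(N) + 1 / 2)) / log N`. -/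
theorem result : ∀ N : ℕ, 2 ≤ N → ∀ n : ℕ,
    (n : ℝ) / 2 - (1 + log 3) / (2 * log N) ≤ average N n ∧
    average N n ≤ (n : ℝ) / 2 +
      ((1 + log 3) / 2 + log (2 ^ N.primeFactors.card + 1 / 2)) / log N := by
  intro N hN n
  have hQ : 0 < N ^ n := pow_pos (by omega) n
  have hNr : (1 : ℝ) < N := by exact_mod_cast (show 1 < N by omega)
  have hlog : 0 < log N := Real.log_pos hNr
  have hQr : (0 : ℝ) < (N : ℝ) ^ n := by positivity
  have h1 : ∑ a : Fin n → Fin N, (finComplexity N n a).toReal =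
      ∑ A ∈ Finset.range (N ^ n), Real.logb N (gd N (N ^ n) A) := by
    rw [← Fin.sum_univ_eq_sum_range (fun A => Real.logb N (gd N (N ^ n) A)) (N ^ n)]
    refine Fintype.sum_equiv finFunctionFinEquiv _ _ fun a => ?_
    rw [finComplexity_eq N n hN a, EReal.toReal_coe]
  have h2 : average N n = (∑ A ∈ Finset.range (N ^ n), 2 * log (gd N (N ^ n) A)) /
      (2 * log N * (N : ℝ) ^ n) := by
    unfold average
    rw [h1]
    simp only [Real.logb]
    rw [← Finset.sum_div, ← Finset.mul_sum]
    field_simp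
  have h3 := sum_lower N (N ^ n) hN hQ
  have h4 := sum_upper N (N ^ n) hN hQ
  have h5 : log ((N ^ n : ℕ) : ℝ) = n * log N := by
    push_cast
    rw [Real.log_pow]
  rw [h5] at h3 h4
  push_cast at h3 h4
  rw [h2]
  constructor
  · rw [le_div_iff₀ (by positivity)]
    refine le_trans (le_of_eq ?_) h3
    field_simp
    ring
  · rw [div_le_iff₀ (by positivity)]
    refine h4.trans (le_of_eq ?_)
    field_simp
    ring

end Pool.Agent.Results.MP_68df70_lc.HalfTheLength
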